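import Pool.Agent.HCL.CLH
import Pool.Agent.HCL.CLO
import Pool.Agent.HCL.CLT
import Pool.Agent.TRE.Fin

/-!
# `C^∞` norms on `C(K)` for a class of scattered compact spaces

The definitions `GoodK`, `Close`, `Scat` are in `Pool/Agent/SDN/Defs.lean` and `Pool/Agent/SDN/St2.lean`, `TreeTop`,
`GoodRho` in `Pool/Agent/TRE/Defs.lean`.

* `SDN.GoodK K`: for every Banach space `X`, every continuous seminorm `q` on `X` of class `C^∞` off its zeros and every
  `0 < ε < 1` there is a seminorm `N` on `C(K, X)`, of class `C^∞` off its zeros, with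
  `q (f x) ≤ (1 + ε) N f` for all `x`, `N f ≤ (1 + ε) r` if `q (f x) ≤ r` for all `x`, and `N f = q v` for constant `f = v`.
* `SDN.Close K`: for every `ε > 0`, `C(K)` has a norm `N`, of class `C^∞` off `0`, with `‖f‖ ≤ N f ≤ (1 + ε) ‖f‖`.
* `SDN.Scat L`: every nonempty subset of `L` has a relatively isolated point.
-/

set_option autoImplicit false

namespace Pool.Agent.Results.MP_3b2a37_an.ClassGoodK

open Set Topology SDN TRE

/-- `F` is closed and its complement is covered by the sets `⋃ i, E n i`, each of them the difference of two closed sets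
and the topological sum of the sets `E n i` -/
structure SumOff {K : Type} [TopologicalSpace K] (F : Set K) (I : ℕ → Type) (E : ∀ n, I n → Set K) : Prop where
  closed : IsClosed F
  diff : ∀ n, ∃ A B : Set K, IsClosed A ∧ IsClosed B ∧ (⋃ i, E n i) = A \ B
  disj : ∀ n (i j : I n) (x : K), x ∈ E n i → x ∈ E n j → i = j
  op : ∀ n (i : I n), ∀ t ∈ E n i, ∃ V ∈ 𝓝 t, ∀ s ∈ V, s ∈ (⋃ j, E n j) → s ∈ E n i
  cov : ∀ x, x ∉ F → ∃ n, x ∈ ⋃ i, E n i

/-- the smallest class of compact Hausdorff spaces which contains the scattered linearly ordered ones and the one-point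
compactifications of trees with an increasing function `ρ` such that each `{u | t ≤ u ∧ ρ u < ρ t + ε}`, for some `ε > 0`,
is covered by finitely many chains, and which is closed under closed subspaces, products, Hausdorff continuous images,
compact sets of points of finite support in products of pointed spaces, and `SumOff` -/
inductive Her : (K : Type) → TopologicalSpace K → Prop
  | ordered (L : Type) [LinearOrder L] [t : TopologicalSpace L] [OrderTopology L] [CompactSpace L] :
      Scat L → Her L t
  | tree (L : Type) [t : TopologicalSpace L] [CompactSpace L] [T2Space L] [PartialOrder L] (o : L) (ρ : L → ℝ) :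
      TreeTop L o → (∀ s t : L, s ≤ t → ρ s ≤ ρ t) →
      (∀ t : L, t ≠ o → ∃ ε : ℝ, 0 < ε ∧ ∃ (k : ℕ) (C : Fin k → Set L), (∀ i, IsChain (· ≤ ·) (C i)) ∧
        {u | t ≤ u ∧ ρ u < ρ t + ε} ⊆ ⋃ i, C i) → Her L t
  | closed (K : Type) (t : TopologicalSpace K) (G : Set K) : Her K t → IsClosed G → Her G inferInstance
  | prod (K K' : Type) (t : TopologicalSpace K) (t' : TopologicalSpace K') : Her K t → Her K' t' →
      Her (K × K') inferInstance
  | image (K K' : Type) (t : TopologicalSpace K) (t' : TopologicalSpace K') (φ : K → K') : T2Space K' →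
      Continuous φ → Function.Surjective φ → Her K t → Her K' t'
  | supp (J : Type) (L : J → Type) (t : ∀ i, TopologicalSpace (L i)) (e : ∀ i, L i) (K : Set (∀ i, L i)) :
      (∀ i, Her (L i) (t i)) → IsClosed K → (∀ x ∈ K, {i | x i ≠ e i}.Finite) → Her K inferInstance
  | sum (K : Type) (t : TopologicalSpace K) (F : Set K) (I : ℕ → Type) (E : ∀ n, I n → Set K) : CompactSpace K →
      T2Space K → SumOff F I E → Her F inferInstance → (∀ n i, Her (closure (E n i)) inferInstance) → Her K t

/-- the smallest class of compact Hausdorff spaces which contains `Her`, is closed under products and Hausdorff continuous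
images, and contains `K` if there is a continuous map `π` of `K` onto a space `L` in `Her`, or onto the one-point
compactification `L` of a tree with `GoodRho`, whose fibres are in the class over the isolated points of `L` and singletons
over the other points -/
inductive Cls : (K : Type) → TopologicalSpace K → Prop
  | her (K : Type) (t : TopologicalSpace K) : Her K t → Cls K t
  | prod (K K' : Type) (t : TopologicalSpace K) (t' : TopologicalSpace K') : Cls K t → Cls K' t' →
      Cls (K × K') inferInstance
  | image (K K' : Type) (t : TopologicalSpace K) (t' : TopologicalSpace K') (φ : K → K') : T2Space K' →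
      Continuous φ → Function.Surjective φ → Cls K t → Cls K' t'
  | fibres (K L : Type) [s : TopologicalSpace K] [CompactSpace K] [T2Space K] [t : TopologicalSpace L]
      [CompactSpace L] [T2Space L] (π : C(K, L)) : Function.Surjective π →
      (Her L t ∨ ∃ (_ : PartialOrder L) (o : L) (ρ : L → ℝ), TreeTop L o ∧ GoodRho L o ρ) →
      (∀ y, IsOpen {y} → Cls (π ⁻¹' {y}) inferInstance) →
      (∀ y, ¬ IsOpen {y} → ∀ k l, π k = y → π l = y → k = l) → Cls K s

theorem to_cl (K : Type) (t : TopologicalSpace K) (h : Her K t) : HCL.Cl1 K t := by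
  induction h with
  | ordered L hL => exact HCL.CLF_lo L hL
  | tree L o ρ hT hm hb => exact HCL.CLT_main L o hT ρ hm hb
  | closed K t G _ hG ih => exact HCL.Cl1.sub K t G ih hG
  | prod K K' t t' _ _ ih ih' => exact HCL.CLF_prod K K' t t' ih ih'
  | image K K' t t' φ h1 h2 h3 _ ih => exact HCL.Cl1.img K K' t t' φ h1 h2 h3 ih
  | supp J L t e K _ h1 h2 ih => exact HCL.CLG_supp J L t e ih K h1 h2
  | sum K t F I E h1 h2 h3 _ _ ih ih' =>
    exact HCL.Cl1.sig K t F I E h1 h2 ⟨h3.closed, h3.diff, h3.disj, h3.op, h3.cov⟩ ih ih'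

theorem her_good (K : Type) [t : TopologicalSpace K] [CompactSpace K] (h : Her K t) : GoodK K :=
  HCL.CLF_good K (to_cl K t h)

theorem her_ct (K : Type) (t : TopologicalSpace K) (h : Her K t) : CompactSpace K ∧ T2Space K := by
  induction h with
  | ordered L hL => exact ⟨inferInstance, inferInstance⟩
  | tree L o ρ hT hm hb => exact ⟨inferInstance, inferInstance⟩
  | closed K t G _ hG ih =>
    obtain ⟨_, _⟩ := ih
    exact ⟨isCompact_iff_compactSpace.mp hG.isCompact, inferInstance⟩
  | prod K K' t t' _ _ ih ih' =>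
    obtain ⟨_, _⟩ := ih
    obtain ⟨_, _⟩ := ih'
    exact ⟨inferInstance, inferInstance⟩
  | image K K' t t' φ h1 h2 h3 _ ih =>
    obtain ⟨_, _⟩ := ih
    exact ⟨h3.compactSpace h2, h1⟩
  | supp J L t e K _ h1 h2 ih =>
    have i1 : ∀ i, CompactSpace (L i) := fun i => (ih i).1
    have i2 : ∀ i, T2Space (L i) := fun i => (ih i).2
    exact ⟨isCompact_iff_compactSpace.mp h1.isCompact, inferInstance⟩
  | sum K t F I E h1 h2 h3 _ _ ih ih' => exact ⟨h1, h2⟩

theorem cls_good (K : Type) (t : TopologicalSpace K) (h : Cls K t) :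
    T2Space K ∧ ∃ _ : CompactSpace K, GoodK K := by
  induction h with
  | her K t h =>
    obtain ⟨_, _⟩ := her_ct K t h
    exact ⟨inferInstance, inferInstance, her_good K h⟩
  | prod K K' t t' _ _ ih ih' =>
    obtain ⟨h1, h2, h3⟩ := ih
    obtain ⟨h4, h5, h6⟩ := ih'
    exact ⟨inferInstance, inferInstance, thm_PD.2.1 K K' h3 h6⟩
  | image K K' t t' φ h1 h2 h3 _ ih =>
    obtain ⟨_, _, h4⟩ := ih
    have h5 : CompactSpace K' := h3.compactSpace h2
    exact ⟨h1, h5, thm_PD.2.2.1 K K' ⟨φ, h2⟩ h3 h4⟩
  | fibres K L π hπ hL _ h2 ih =>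
    refine ⟨inferInstance, inferInstance, ?_⟩
    rcases hL with h | ⟨_, o, ρ, hT, hρ⟩
    · refine HCL.CLO_main K L π (fun y hy => ?_) h2 (HCL.CLF_her L _ (to_cl L _ h))
      intro h0
      exact (ih y hy).2.2
    · exact TRE.Fin_TE K L o ρ π hT hρ hπ (fun y hy h0 => (ih y hy).2.2) h2

theorem result (K : Type) [t : TopologicalSpace K] [CompactSpace K] (h : Cls K t) : Close K ∧ GoodK K := by
  obtain ⟨_, _, hK⟩ := cls_good K t h
  exact ⟨thm_PD.2.2.2 K hK, hK⟩

end Pool.Agent.Results.MP_3b2a37_an.ClassGoodK
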