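import Pool.Agent.HCL.GLX

/-!
# `C^∞` norms on `C(K, X)`: gluing along strata

If the spaces `C(M, X)`, `M` the closures of the cells of the strata, have norms of class `C^∞` off `0` arbitrarily close to the
supremum norm, then an equivalent norm of class `C^∞` off `0` passes from `C(F, X)` to `C(K, X)`.
-/

set_option autoImplicit false

namespace Pool.Agent.Results.MP_3b2a37_an.GluingTheorem

open Set Topology

/-- `C(K, X)` has a norm, `C^∞` off `0`, between `a ‖f‖` and `b ‖f‖` -/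
def Norm (K X : Type) [TopologicalSpace K] [CompactSpace K] [NormedAddCommGroup X] [NormedSpace ℝ X] (a b : ℝ) :
    Prop :=
  ∃ N : Seminorm ℝ C(K, X), (∀ f : C(K, X), a * ‖f‖ ≤ N f ∧ N f ≤ b * ‖f‖) ∧
    ∀ f : C(K, X), f ≠ 0 → ContDiffAt ℝ ((⊤ : ℕ∞) : WithTop ℕ∞) (⇑N) f

/-- `C(K, X)` has an equivalent norm of class `C^∞` off `0` -/
def Smooth (K X : Type) [TopologicalSpace K] [CompactSpace K] [NormedAddCommGroup X] [NormedSpace ℝ X] : Prop :=
  ∃ a b : ℝ, 0 < a ∧ 0 < b ∧ Norm K X a b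

/-- `C(K, X)` has norms of class `C^∞` off `0` which are arbitrarily close to the supremum norm -/
def Close (K X : Type) [TopologicalSpace K] [CompactSpace K] [NormedAddCommGroup X] [NormedSpace ℝ X] : Prop :=
  ∀ ε : ℝ, 0 < ε → Norm K X 1 (1 + ε)

/-- `F`, `A n`, `B n` are closed, `A n \ B n` is the topological sum of the sets `E n i`, and `K` is the union of `F` and the
sets `A n \ B n` -/
structure Strata {K : Type} [TopologicalSpace K] (F : Set K) (A B : ℕ → Set K) (I : ℕ → Type)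
    (E : ∀ n, I n → Set K) : Prop where
  closed : IsClosed F
  clA : ∀ n, IsClosed (A n)
  clB : ∀ n, IsClosed (B n)
  eq : ∀ n, (⋃ i, E n i) = A n \ B n
  dis : ∀ n (i j : I n) (x : K), x ∈ E n i → x ∈ E n j → i = j
  op : ∀ n (i : I n), ∀ t ∈ E n i, ∃ V ∈ 𝓝 t, ∀ s ∈ V, s ∈ A n \ B n → s ∈ E n i
  cov : ∀ x, x ∉ F → ∃ n, x ∈ A n \ B n

/-- `M` is the closure of the cell of a point `x ∈ E n i` which is not in `F` and not in `A m \ B m` for `m < n`; the cell is
the set of the points of `E n i` which are not in `F` and which are in the same sets `A m`, `B m`, `m ≤ n`, as `x` -/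
def ClCell {K : Type} [TopologicalSpace K] (F : Set K) (A B : ℕ → Set K) (I : ℕ → Type) (E : ∀ n, I n → Set K)
    (M : Set K) : Prop :=
  ∃ (n : ℕ) (i : I n) (x : K), x ∈ E n i ∧ x ∉ F ∧ (∀ m < n, x ∉ A m \ B m) ∧
    M = closure {y | y ∈ E n i ∧ y ∉ F ∧ ∀ m ≤ n, (y ∈ A m ↔ x ∈ A m) ∧ (y ∈ B m ↔ x ∈ B m)}

theorem result (K X : Type) [TopologicalSpace K] [CompactSpace K] [T2Space K] [NormedAddCommGroup X] [NormedSpace ℝ X]
    [CompleteSpace X] (F : Set K) [CompactSpace F] (A B : ℕ → Set K) (I : ℕ → Type) (E : ∀ n, I n → Set K)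
    (hS : Strata F A B I E) (h : ∀ M : Set K, ∀ _ : CompactSpace M, ClCell F A B I E M → Close M X) :
    (Smooth F X → Smooth K X) ∧ (Close F X → Close K X) := by
  have hS' : HCL.Strata F A B I E := ⟨hS.closed, hS.clA, hS.clB, hS.eq, hS.dis, by
    intro n i t ht
    rw [hS.eq]
    exact hS.op n i t ht, by
    intro x hx
    obtain ⟨n, hn⟩ := hS.cov x hx
    refine ⟨n, ?_⟩
    rw [hS.eq]
    exact hn⟩
  exact HCL.GLX_main K X F A B I E hS' fun n i x h1 h2 h3 hc => h _ hc ⟨n, i, x, h1, h2, h3, rfl⟩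

end Pool.Agent.Results.MP_3b2a37_an.GluingTheorem
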