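import Pool.Agent.TRE.FinB
import Pool.Agent.SDN.PD

/-!
# `C^∞` norms on `C(K)` for scattered compact spaces `K` with bad closed subspaces

The definitions are in `Pool/Agent/TRE/Defs.lean` and `Pool/Agent/SDN/Defs.lean`, `Pool/Agent/SDN/St2.lean`.

* `TRE.TreeTop L o`: the compact Hausdorff space `L` is the one-point compactification, with the point `o` at infinity, of a tree
  with its interval topology.
* `SDN.GoodK K`: for every Banach space `X`, every continuous seminorm `q` on `X` of class `C^∞` off its zeros and every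
  `0 < ε < 1` there is a seminorm `N` on `C(K, X)`, of class `C^∞` off its zeros, with
  `q (f x) ≤ (1 + ε) N f` for all `x`, `N f ≤ (1 + ε) r` if `q (f x) ≤ r` for all `x`, and `N f = q v` for constant `f = v`.
* `SDN.Close K`: for every `ε > 0`, `C(K)` has a norm `N`, of class `C^∞` off `0`, with `‖f‖ ≤ N f ≤ (1 + ε) ‖f‖`.
* `SDN.Scat K`: every nonempty subset of `K` has a relatively isolated point.
-/

set_option autoImplicit false

namespace Pool.Agent.Results.MP_3b2a37_an.IsolatedPoints

open Set Topology SDN TRE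

theorem result (L : Type) [TopologicalSpace L] [CompactSpace L] [T2Space L] [PartialOrder L] (o : L)
    (hT : TreeTop L o) (hc : ∀ t, t ≠ o → (Iic t).Countable) :
    ∃ (K : Type) (_ : TopologicalSpace K) (_ : CompactSpace K) (_ : T2Space K) (j : C(L, K)),
      Function.Injective j ∧ (∀ x, x ∉ range j → IsOpen {x}) ∧ Scat K ∧ GoodK K ∧ Close K := by
  obtain ⟨K, h1, h2, h3, j, hj, hi, hs, hg⟩ := Fin_FB2.1 L o hT hc
  exact ⟨K, h1, h2, h3, j, hj, hi, hs, hg, thm_PD.2.2.2 K hg⟩

end Pool.Agent.Results.MP_3b2a37_an.IsolatedPoints
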