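import Pool.Agent.CKM.Main

set_option autoImplicit false

namespace Pool.Agent.Results.MP_3b2a37_an.MonotonePieces

open Set Filter Topology
open scoped ZeroAtInfty

/-- The normed space `E` has a norm `N` of class C^infinity off zero with `‖f‖ ≤ N f ≤ b ‖f‖`. -/
def Smooth (E : Type) [NormedAddCommGroup E] [NormedSpace ℝ E] (b : ℝ) : Prop :=
  ∃ N : Seminorm ℝ E, (∀ f : E, ‖f‖ ≤ N f ∧ N f ≤ b * ‖f‖) ∧
    ∀ f : E, f ≠ 0 → ContDiffAt ℝ ((⊤ : ℕ∞) : WithTop ℕ∞) (⇑N) f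

/-- `C₀(D)`, the space of the continuous real functions on `D` which vanish at infinity, with the
supremum norm, has an equivalent norm of class C^infinity off zero which is increasing on
nonnegative functions. -/
def MonotoneSmooth (D : Type) [TopologicalSpace D] : Prop :=
  ∃ N : Seminorm ℝ C₀(D, ℝ),
    (∃ a b : ℝ, 0 < a ∧ 0 < b ∧ ∀ f : C₀(D, ℝ), a * ‖f‖ ≤ N f ∧ N f ≤ b * ‖f‖) ∧
    (∀ f : C₀(D, ℝ), f ≠ 0 → ContDiffAt ℝ ((⊤ : ℕ∞) : WithTop ℕ∞) (⇑N) f) ∧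
    ∀ f g : C₀(D, ℝ), (∀ t, 0 ≤ f t) → (∀ t, f t ≤ g t) → N f ≤ N g

/-- The complement of `F` is the disjoint union of the pieces `D_i = {t | t ∉ F ∧ j t = i}`, with
thresholds `β i`, `δ i`. -/
structure Pieces (K : Type) [TopologicalSpace K] (F : Set K) (J : Type) (j : K → J)
    (β δ : J → ℝ) : Prop where
  /-- thresholds -/
  bounds : ∀ i, 1 ≤ β i ∧ 0 < δ i ∧ β i + δ i ≤ 2
  /-- near `t` the other pieces have thresholds `≥ β (j t) + δ (j t)` -/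
  sep : ∀ t, t ∉ F → ∀ᶠ u in 𝓝 t, u ∉ F → j u ≠ j t → β (j t) + δ (j t) ≤ β (j u)
  /-- the spaces `C₀(D_i)` have monotone norms -/
  mono : ∀ i, MonotoneSmooth {t : K | t ∉ F ∧ j t = i}

/-- **Gluing theorem for C^infinity norms on `C(K, X)`, monotone norms on the pieces.** -/
theorem result (K X : Type) [TopologicalSpace K] [CompactSpace K]
    [NormedAddCommGroup X] [NormedSpace ℝ X] [CompleteSpace X]
    (hX : ∀ x : X, x ≠ 0 → ContDiffAt ℝ ((⊤ : ℕ∞) : WithTop ℕ∞) (fun y : X => ‖y‖) x)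
    (F : Set K) [CompactSpace F] (b : ℝ) (hb : 1 ≤ b) (hF : Smooth C(F, X) b)
    (J : Type) (j : K → J) (β δ : J → ℝ) (hP : Pieces K F J j β δ) (ε : ℝ) (hε : 0 < ε) :
    Smooth C(K, X) (b + ε) :=
  Pool.Agent.CKM.mainQ K X hX F b hb hF J j β δ ⟨hP.bounds, hP.sep, hP.mono⟩ ε hε

end Pool.Agent.Results.MP_3b2a37_an.MonotonePieces
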